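import Mathlib

set_option autoImplicit false

namespace Pool.Agent.Helper390.Covario

open MeasureTheory FourierTransform
open scoped RealInnerProductSpace ENNReal

variable {E : Type*} [NormedAddCommGroup E] [InnerProductSpace ℝ E] [FiniteDimensional ℝ E]
  [MeasurableSpace E] [BorelSpace E]

/-- The `L²` Fourier transform of an integrable and square integrable function is represented by
the pointwise Fourier integral. -/
theorem fourier_toLp_ae {f : E → ℂ} (h1 : Integrable f) (h2 : MemLp f 2) :
    ((𝓕 (h2.toLp f) : Lp ℂ 2 (volume : Measure E)) : E → ℂ) =ᵐ[volume] 𝓕 f := by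
  have hcont : Continuous (𝓕 f) :=
    VectorFourier.fourierIntegral_continuous Real.continuous_fourierChar continuous_inner h1
  refine ae_eq_of_integral_contDiff_smul_eq ?_ hcont.locallyIntegrable ?_
  · exact (Lp.memLp (μ := (volume : Measure E))
      (𝓕 (h2.toLp f) : Lp ℂ 2 (volume : Measure E))).locallyIntegrable (by norm_num)
  · intro g hg hgs
    have hgc : HasCompactSupport (fun x => (g x : ℂ)) := by
      refine hgs.comp_left (g := fun r : ℝ => (r : ℂ)) (by simp)
    have hgd : ContDiff ℝ ((⊤ : ℕ∞) : WithTop ℕ∞) (fun x => (g x : ℂ)) :=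
      Complex.ofRealCLM.contDiff.comp hg
    set φ : SchwartzMap E ℂ := hgc.toSchwartzMap hgd with hφ
    have hφx : ∀ x, φ x = (g x : ℂ) := fun x => rfl
    have key := DFunLike.congr_fun (Lp.fourier_toTemperedDistribution_eq (h2.toLp f)) φ
    rw [TemperedDistribution.fourier_apply, Lp.toTemperedDistribution_apply (μ := volume),
      Lp.toTemperedDistribution_apply (μ := volume)] at key
    have e1 : ∫ x : E, g x • ((𝓕 (h2.toLp f) : Lp ℂ 2 (volume : Measure E)) : E → ℂ) x =
        ∫ x, φ x • ((𝓕 (h2.toLp f) : Lp ℂ 2 (volume : Measure E)) : E → ℂ) x := by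
      refine integral_congr_ae (Filter.Eventually.of_forall fun x => ?_)
      simp [hφx]
    have e2 : ∫ x, g x • 𝓕 f x = ∫ x, φ x • 𝓕 f x := by
      refine integral_congr_ae (Filter.Eventually.of_forall fun x => ?_)
      simp [hφx]
    rw [e1, ← key, e2]
    have e3 : ∫ x, (𝓕 φ) x • ((h2.toLp f : Lp ℂ 2 (volume : Measure E)) : E → ℂ) x = ∫ x, (𝓕 φ) x • f x := by
      refine integral_congr_ae ?_
      filter_upwards [h2.coeFn_toLp] with x hx
      rw [hx]
    rw [e3]
    have hφi : Integrable (fun x => φ x) := φ.integrable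
    have := VectorFourier.integral_fourierIntegral_smul_eq_flip (L := innerₗ E)
      (μ := volume) (ν := volume) Real.continuous_fourierChar continuous_inner hφi h1
    have hfl : (innerₗ E).flip = innerₗ E := by
      ext x y; simp
    rw [hfl] at this
    exact this

theorem plancherel {f : E → ℂ} (h1 : Integrable f) (h2 : MemLp f 2) :
    MemLp (𝓕 f) 2 ∧ ∫ ξ, ‖𝓕 f ξ‖ ^ 2 = ∫ x, ‖f x‖ ^ 2 := by
  have hae := fourier_toLp_ae h1 h2
  have hm : MemLp (𝓕 f) 2 := (memLp_congr_ae hae).1 (Lp.memLp (μ := (volume : Measure E)) (𝓕 (h2.toLp f) : Lp ℂ 2 (volume : Measure E)))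
  refine ⟨hm, ?_⟩
  have hn := Lp.norm_fourier_eq (h2.toLp f)
  have hnorm : ∀ u : Lp ℂ 2 (volume : Measure E), ∫ x, ‖(u : E → ℂ) x‖ ^ 2 = ‖u‖ ^ 2 := by
    intro u
    have h1 : inner ℂ u u = ((‖u‖ : ℝ) : ℂ) ^ 2 := inner_self_eq_norm_sq_to_K u
    rw [L2.inner_def] at h1
    have h2 : ∫ x, inner ℂ ((u : E → ℂ) x) ((u : E → ℂ) x) =
        ((∫ x, ‖(u : E → ℂ) x‖ ^ 2 : ℝ) : ℂ) := by
      rw [← integral_complex_ofReal]
      refine integral_congr_ae (Filter.Eventually.of_forall fun x => ?_)
      simp only [inner_self_eq_norm_sq_to_K]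
      push_cast
      rfl
    rw [h2] at h1
    exact_mod_cast h1
  rw [show ∫ ξ, ‖𝓕 f ξ‖ ^ 2 = ∫ ξ, ‖((𝓕 (h2.toLp f) : Lp ℂ 2 (volume : Measure E)) : E → ℂ) ξ‖ ^ 2 from ?_,
    hnorm, hn, ← hnorm]
  · refine integral_congr_ae ?_
    filter_upwards [h2.coeFn_toLp] with x hx
    rw [hx]
  · refine integral_congr_ae ?_
    filter_upwards [hae] with x hx
    rw [hx]


/-- Equality case of the Cauchy-Schwarz inequality for continuous nonnegative functions. -/
theorem cs_equality {a b : E → ℝ} (ha : Continuous a) (hb : Continuous b)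
    (ha2 : Integrable fun x => a x ^ 2) (hb2 : Integrable fun x => b x ^ 2)
    (hab : Integrable fun x => a x * b x) {A B : ℝ}
    (hA : ∫ x, a x ^ 2 = A ^ 2) (hB : ∫ x, b x ^ 2 = B ^ 2) (hAB : ∫ x, a x * b x = A * B)
    (x : E) : B * a x = A * b x := by
  have hexp : ∀ y, (B * a y - A * b y) ^ 2 =
      B ^ 2 * a y ^ 2 - 2 * (A * B) * (a y * b y) + A ^ 2 * b y ^ 2 := by intro y; ring
  have hint : Integrable fun y => (B * a y - A * b y) ^ 2 := by
    simp_rw [hexp]
    exact ((ha2.const_mul _).sub (hab.const_mul _)).add (hb2.const_mul _)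
  have hzero : ∫ y, (B * a y - A * b y) ^ 2 = 0 := by
    simp_rw [hexp]
    have i1 : Integrable fun y => B ^ 2 * a y ^ 2 := ha2.const_mul _
    have i2 : Integrable fun y => 2 * (A * B) * (a y * b y) := hab.const_mul _
    have i3 : Integrable fun y => A ^ 2 * b y ^ 2 := hb2.const_mul _
    have i4 : Integrable fun y => B ^ 2 * a y ^ 2 - 2 * (A * B) * (a y * b y) := i1.sub i2
    rw [integral_add i4 i3, integral_sub i1 i2, integral_const_mul, integral_const_mul,
      integral_const_mul, hA, hB, hAB]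
    ring
  have hae := (integral_eq_zero_iff_of_nonneg (fun y => sq_nonneg _) hint).1 hzero
  have hcont : Continuous fun y => (B * a y - A * b y) ^ 2 := by fun_prop
  have heq := (hcont.ae_eq_iff_eq volume continuous_const).1 hae
  have hx := congrFun heq x
  have hx' : (B * a x - A * b x) ^ 2 = 0 := hx
  have := pow_eq_zero_iff (two_ne_zero) |>.1 hx'
  linarith

/-- A function on the line with `φ (2t) = 2 φ t` which is differentiable at `0` is linear. -/
theorem doubling {φ : ℝ → ℝ} {d : ℝ} (h2 : ∀ t, φ (2 * t) = 2 * φ t) (hd : HasDerivAt φ d 0) :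
    φ 1 = d := by
  have h0 : φ 0 = 0 := by have := h2 0; simp at this; linarith
  have hpow : ∀ k : ℕ, φ ((1 / 2) ^ k) = (1 / 2) ^ k * φ 1 := by
    intro k
    induction k with
    | zero => simp
    | succ k ih =>
      have := h2 ((1 / 2) ^ (k + 1))
      rw [show (2 : ℝ) * (1 / 2) ^ (k + 1) = (1 / 2) ^ k by rw [pow_succ]; ring, ih] at this
      have e : ((1 / 2 : ℝ)) ^ (k + 1) * φ 1 = (1 / 2) ^ k * φ 1 / 2 := by rw [pow_succ]; ring
      rw [e]; linarith
  have hseq : Filter.Tendsto (fun k : ℕ => ((1 / 2 : ℝ)) ^ k) Filter.atTop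
      (nhdsWithin 0 {0}ᶜ) := by
    rw [tendsto_nhdsWithin_iff]
    refine ⟨tendsto_pow_atTop_nhds_zero_of_lt_one (by norm_num) (by norm_num), ?_⟩
    exact Filter.Eventually.of_forall fun k => by simp
  have hs := (hasDerivAt_iff_tendsto_slope.1 hd).comp hseq
  have hconst : ∀ k : ℕ, (slope φ 0 ∘ fun k : ℕ => ((1 / 2 : ℝ)) ^ k) k = φ 1 := by
    intro k
    have hk : ((1 / 2 : ℝ)) ^ k ≠ 0 := by positivity
    simp only [Function.comp_apply, slope_def_field, h0, sub_zero, hpow]
    field_simp
  have : Filter.Tendsto (fun _ : ℕ => φ 1) Filter.atTop (nhds d) := by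
    refine hs.congr fun k => hconst k
  exact tendsto_nhds_unique tendsto_const_nhds this

/-- Two regular compact sets with equal restricted Lebesgue measures coincide. -/
theorem subset_of_restrict {C D : Set E} (hC : IsCompact C) 
    (hD : closure (interior D) = D)
    (h : (volume : Measure E).restrict D = (volume : Measure E).restrict C) : D ⊆ C := by
  rw [← hD]
  refine closure_minimal ?_ hC.isClosed
  intro x hx
  by_contra hxC
  have hopen : IsOpen (interior D ∩ Cᶜ) := isOpen_interior.inter hC.isClosed.isOpen_compl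
  have hpos : 0 < (volume : Measure E) (interior D ∩ Cᶜ) :=
    hopen.measure_pos _ ⟨x, hx, hxC⟩
  have h1 : (volume : Measure E).restrict D (interior D ∩ Cᶜ) = volume (interior D ∩ Cᶜ) := by
    rw [Measure.restrict_apply hopen.measurableSet]
    congr 1
    ext y
    simp only [Set.mem_inter_iff, Set.mem_compl_iff]
    constructor
    · rintro ⟨h, _⟩; exact h
    · rintro h; exact ⟨h, interior_subset h.1⟩
  have h2 : (volume : Measure E).restrict C (interior D ∩ Cᶜ) = 0 := by
    rw [Measure.restrict_apply hopen.measurableSet]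
    have : interior D ∩ Cᶜ ∩ C = ∅ := by
      ext y
      simp only [Set.mem_inter_iff, Set.mem_compl_iff, Set.mem_empty_iff_false]
      tauto
    rw [this]; simp
  rw [← h1, h, h2] at hpos
  exact lt_irrefl _ hpos

end Pool.Agent.Helper390.Covario
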